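import Pool.Agent.K7.H50.CN_UP

set_option autoImplicit false

/-! JOB DBL of project CN: the network is doubling, uniformly in `S`. -/

namespace Pool.Agent.K7.H50.CN

open Pool.Agent.K7.H36.CN

variable {S : ℕ}

open Classical in
/-- the sheets which agree with `a` outside `E` -/
noncomputable def sheets (a : Sh S) (E : Finset (Dig S)) : Finset (Sh S) :=
  Finset.univ.image (fun f : E → Fin 16 => fun d => if h : d ∈ E then f ⟨d, h⟩ else a d)

theorem card_sheets (a : Sh S) (E : Finset (Dig S)) : (sheets a E).card ≤ 16 ^ E.card := by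
  unfold sheets
  refine Finset.card_image_le.trans ?_
  simp

theorem mem_sheets {a b : Sh S} {E : Finset (Dig S)} (h : ∀ d, d ∉ E → b d = a d) :
    b ∈ sheets a E := by
  unfold sheets
  rw [Finset.mem_image]
  refine ⟨fun d => b d, Finset.mem_univ _, ?_⟩
  funext d
  by_cases hd : d ∈ E
  · simp [hd]
  · simp [hd, h d hd]

/-- the block `m` is near -/
def Near (S : ℕ) (x r : ℝ) (m : ℤ) : Prop :=
  x - r - 20 * (MM S : ℝ) < m * (Lam S : ℝ) ∧ m * (Lam S : ℝ) < x + r - 10 * (MM S : ℝ)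

theorem near_of_conn {x y : ℝ} {a b : Sh S} {L r : ℝ} (h : Conn (x, a) (y, b) L) (hL : L < r)
    (d : Dig S) (hd : a d ≠ b d) : ∃ m : ℤ, IsBlk m d.1 d.2.1 ∧ Near S x r m := by
  rcases h.switch d with h3 | ⟨ω, L1, L2, a1, ⟨m, hm, hx⟩, a3, a4⟩
  · exact absurd h3 hd
  · refine ⟨m, hm, ?_⟩
    have h4 := a1.height
    have h5 := a3.nonneg
    have h6 := off_mem d ω.2
    have h7 : (10 * (MM S : ℝ)) ≤ (off d ω.2 : ℝ) := by exact_mod_cast h6.1
    have h8 : (off d ω.2 : ℝ) ≤ 20 * (MM S : ℝ) := by exact_mod_cast h6.2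
    push_cast at hx
    rw [hx] at h4
    simp only at h4
    rw [abs_le] at h4
    constructor <;> linarith [h4.1, h4.2]

theorem near_unique {x r : ℝ} {n : ℕ} (hn : 2 * r / (Lam S : ℝ) + 1 < 2 ^ (n + 1)) {m m' : ℤ}
    (hm : Near S x r m) (hm' : Near S x r m') (h : (2 : ℤ) ^ (n + 1) ∣ m)
    (h' : (2 : ℤ) ^ (n + 1) ∣ m') : m = m' := by
  have hL0 : (0 : ℝ) < Lam S := by exact_mod_cast Lam_pos S
  have hM : (0 : ℝ) < MM S := by exact_mod_cast MM_pos S
  have hLM : (Lam S : ℝ) = 64 * MM S := by unfold Lam; push_cast; ring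
  have h1 : |((m : ℝ) - m') * (Lam S : ℝ)| < 2 * r + Lam S := by
    obtain ⟨u1, u2⟩ := hm
    obtain ⟨v1, v2⟩ := hm'
    rw [abs_lt]
    constructor <;> linarith
  rw [abs_mul, abs_of_pos hL0] at h1
  have h2 : |(m : ℝ) - m'| < 2 ^ (n + 1) := by
    refine lt_trans ?_ hn
    rw [← lt_div_iff₀ hL0] at h1
    refine lt_of_lt_of_eq h1 ?_
    field_simp
  have h3 : |m - m'| < 2 ^ (n + 1) := by exact_mod_cast h2
  have h4 := Int.eq_zero_of_abs_lt_dvd (dvd_sub h h') h3
  omega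

theorem dvd_of_blk {m : ℤ} {l : Fin S} {p : Bool} (h : IsBlk m l p) {n : ℕ} (hn : n ≤ (l : ℕ)) :
    (2 : ℤ) ^ n ∣ m := by
  obtain ⟨i, rfl⟩ := h
  exact Dvd.dvd.mul_right (pow_dvd_pow _ hn) _

open Classical in
/-- the digits of level `≥ n - 6` which may change near `x` -/
noncomputable def digs (S : ℕ) (x r : ℝ) (n : ℕ) : Finset (Dig S) :=
  (Finset.univ.filter fun d : Dig S => n - 6 ≤ (d.1 : ℕ) ∧ (d.1 : ℕ) < n + 1) ∪
    (Finset.univ.filter fun d : Dig S => n + 1 ≤ (d.1 : ℕ) ∧ ∃ m : ℤ, IsBlk m d.1 d.2.1 ∧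
      Near S x r m)

theorem card_digs {x r : ℝ} {n : ℕ} (hn : 2 * r / (Lam S : ℝ) + 1 < 2 ^ (n + 1)) :
    (digs S x r n).card ≤ 30 := by
  classical
  unfold digs
  refine (Finset.card_union_le _ _).trans ?_
  have h1 : (Finset.univ.filter fun d : Dig S => n - 6 ≤ (d.1 : ℕ) ∧ (d.1 : ℕ) < n + 1).card ≤
      28 := by
    have h2 : (Finset.univ.filter fun d : Dig S => n - 6 ≤ (d.1 : ℕ) ∧ (d.1 : ℕ) < n + 1).card ≤
        ((Finset.Ico (n - 6) (n + 1)) ×ˢ (Finset.univ : Finset (Bool × Bool))).card := by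
      refine Finset.card_le_card_of_injOn (fun d => ((d.1 : ℕ), d.2)) ?_ ?_
      · intro d hd
        have hd2 := (Finset.mem_filter.1 (Finset.mem_coe.1 hd)).2
        simp only [Finset.coe_product, Set.mem_prod, Finset.mem_coe, Finset.mem_Ico,
          Finset.mem_univ, and_true]
        exact hd2
      · intro d _ d' _ he
        simp only [Prod.mk.injEq] at he
        exact Prod.ext (Fin.ext he.1) he.2
    refine h2.trans ?_
    rw [Finset.card_product, Nat.card_Ico]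
    have : (Finset.univ : Finset (Bool × Bool)).card = 4 := by decide
    rw [this]
    omega
  have h3 : (Finset.univ.filter fun d : Dig S => n + 1 ≤ (d.1 : ℕ) ∧ ∃ m : ℤ, IsBlk m d.1 d.2.1 ∧
      Near S x r m).card ≤ 2 := by
    have h4 : (Finset.univ.filter fun d : Dig S => n + 1 ≤ (d.1 : ℕ) ∧ ∃ m : ℤ, IsBlk m d.1 d.2.1 ∧
      Near S x r m).card ≤ (Finset.univ : Finset Bool).card := by
      refine Finset.card_le_card_of_injOn (fun d => d.2.2) (fun _ _ => Finset.mem_coe.2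
        (Finset.mem_univ _)) ?_
      intro d hd d' hd' he
      obtain ⟨-, u1, m, u2, u3⟩ := Finset.mem_filter.1 (Finset.mem_coe.1 hd)
      obtain ⟨-, v1, m', v2, v3⟩ := Finset.mem_filter.1 (Finset.mem_coe.1 hd')
      have e := near_unique hn u3 v3 (dvd_of_blk u2 u1) (dvd_of_blk v2 v1)
      subst e
      obtain ⟨e1, e2⟩ := blk_unique u2 v2
      exact Prod.ext e1 (Prod.ext e2 he)
    exact h4.trans (by decide)
  omega

theorem exists_center {x y r : ℝ} (hr : 0 < r) (h : |x - y| < r) : ∃ j ∈ Finset.range 17,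
    |x + ((j : ℝ) - 8) * (r / 8) - y| ≤ r / 16 := by
  rw [abs_lt] at h
  set t : ℝ := (y - x) / (r / 8) + 8 with ht
  have h8 : (0 : ℝ) < r / 8 := by positivity
  have e1 : (y - x) / (r / 8) * (r / 8) = y - x := div_mul_cancel₀ _ h8.ne'
  have t1 : 0 < t := by
    have : -8 < (y - x) / (r / 8) := by
      rw [lt_div_iff₀ h8]
      linarith
    linarith
  have t2 : t < 16 := by
    have : (y - x) / (r / 8) < 8 := by
      rw [div_lt_iff₀ h8]
      linarith
    linarith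
  have f1 := Nat.floor_le (show 0 ≤ t + 1 / 2 by linarith)
  have f2 := Nat.lt_floor_add_one (t + 1 / 2)
  refine ⟨⌊t + 1 / 2⌋₊, ?_, ?_⟩
  · rw [Finset.mem_range]
    have : (⌊t + 1 / 2⌋₊ : ℝ) < 17 := by linarith
    exact_mod_cast this
  · have e2 : x + ((⌊t + 1 / 2⌋₊ : ℝ) - 8) * (r / 8) - y = ((⌊t + 1 / 2⌋₊ : ℝ) - t) * (r / 8) := by
      have : ((⌊t + 1 / 2⌋₊ : ℝ) - t) * (r / 8) =
        ((⌊t + 1 / 2⌋₊ : ℝ) - 8) * (r / 8) - (y - x) / (r / 8) * (r / 8) := by
        rw [ht]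
        ring
      rw [this, e1]
      ring
    rw [e2, abs_mul, abs_of_pos h8]
    have h5 : |(⌊t + 1 / 2⌋₊ : ℝ) - t| ≤ 1 / 2 := by
      rw [abs_le]
      constructor <;> linarith
    nlinarith

/-- changing the digits of low level is cheap -/
theorem low_cost {r : ℝ} (hr : 0 < r) {n : ℕ} (hn : (2 : ℝ) ^ n ≤ 2 * r / (Lam S : ℝ) + 1)
    (y : ℝ) (b' b : Sh S) (hb : ∀ d : Dig S, n - 6 ≤ (d.1 : ℕ) → b' d = b d) :
    ∃ L, Conn (y, b') (y, b) L ∧ L < r * (13 / 32) := by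
  by_cases h6 : n < 6
  · have : b' = b := by
      funext d
      exact hb d (by omega)
    subst this
    exact ⟨0, Conn.refl _, by positivity⟩
  · have hL0 : (0 : ℝ) < Lam S := by exact_mod_cast Lam_pos S
    have h1 := stUp S (min (n - 6) S) (min_le_right _ _) b' b (by
      intro d hd
      apply hb
      have := d.1.isLt
      omega) y
    have hle : y ≤ y + (2 ^ (min (n - 6) S + 1) + 2 : ℕ) * (Lam S : ℝ) := by
      have : (0 : ℝ) ≤ (2 ^ (min (n - 6) S + 1) + 2 : ℕ) * (Lam S : ℝ) := by positivity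
      linarith
    refine ⟨_, h1.trans (conn_up b hle).symm, ?_⟩
    have h2 : ((2 ^ (min (n - 6) S + 1) + 2 : ℕ) : ℝ) ≤ 2 ^ n / 16 := by
      have h3 : (2 : ℝ) ^ (min (n - 6) S) ≤ 2 ^ (n - 6) :=
        pow_le_pow_right₀ (by norm_num) (min_le_left _ _)
      have h4 : (2 : ℝ) ^ n = 2 ^ (n - 6) * 64 := by
        obtain ⟨c, rfl⟩ := Nat.exists_eq_add_of_le (not_lt.1 h6)
        rw [Nat.add_sub_cancel_left, pow_add]
        norm_num
        ring
      have h5 : (1 : ℝ) ≤ 2 ^ (n - 6) := one_le_pow₀ (by norm_num)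
      push_cast
      rw [h4, pow_succ]
      linarith
    have h7 : (64 : ℝ) ≤ 2 ^ n := by
      calc (64 : ℝ) = 2 ^ 6 := by norm_num
        _ ≤ 2 ^ n := pow_le_pow_right₀ (by norm_num) (not_lt.1 h6)
    have h8 : (Lam S : ℝ) * 63 ≤ 2 * r := by
      have h9 : (63 : ℝ) ≤ 2 * r / (Lam S : ℝ) := by linarith
      rw [le_div_iff₀ hL0] at h9
      linarith
    have h10 : (2 : ℝ) ^ n * (Lam S : ℝ) ≤ 2 * r + Lam S := by
      have := mul_le_mul_of_nonneg_right hn hL0.le
      rwa [add_mul, one_mul, div_mul_cancel₀ _ hL0.ne'] at this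
    have h11 := mul_le_mul_of_nonneg_right h2 hL0.le
    have h12 : ((2 ^ (min (n - 6) S + 1) + 2 : ℕ) : ℝ) * (Lam S : ℝ) ≤ (2 * r + Lam S) / 16 := by
      linarith
    linarith

/-- JOB DBL -/
theorem stDbl : StDbl := by
  classical
  refine ⟨17 * 16 ^ 30, ?_⟩
  rintro S ⟨x, a⟩ r hr
  have hL0 : (0 : ℝ) < Lam S := by exact_mod_cast Lam_pos S
  have hW : 1 ≤ 2 * r / (Lam S : ℝ) + 1 := by
    have : 0 ≤ 2 * r / (Lam S : ℝ) := by positivity
    linarith
  obtain ⟨n, hn1, hn2⟩ := exists_nat_pow_near hW one_lt_two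
  refine ⟨((Finset.range 17) ×ˢ (sheets a (digs S x r n))).image
    (fun jc => (x + ((jc.1 : ℝ) - 8) * (r / 8), jc.2)), ?_, ?_⟩
  · refine Finset.card_image_le.trans ?_
    rw [Finset.card_product, Finset.card_range]
    refine Nat.mul_le_mul_left _ ((card_sheets _ _).trans ?_)
    exact Nat.pow_le_pow_right (by norm_num) (card_digs hn2)
  · intro q hq
    obtain ⟨L, ⟨m0, hL⟩, hLr⟩ := exists_cn_of_lt stUp hq
    set y : ℝ := q.1 + m0 * (Per S : ℝ) with hy
    have hxy : |x - y| < r := lt_of_le_of_lt hL.height hLr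
    obtain ⟨j, hj, hjd⟩ := exists_center hr hxy
    set b' : Sh S := fun d => if (d.1 : ℕ) < n - 6 then a d else q.2 d with hb'
    have hmem : b' ∈ sheets a (digs S x r n) := by
      apply mem_sheets
      intro d hd
      rw [hb']
      simp only
      split_ifs with h1
      · rfl
      · by_contra h2
        apply hd
        obtain ⟨m, hm1, hm2⟩ := near_of_conn hL hLr d (fun h => h2 h.symm)
        unfold digs
        rw [Finset.mem_union, Finset.mem_filter, Finset.mem_filter]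
        by_cases h3 : (d.1 : ℕ) < n + 1
        · exact Or.inl ⟨Finset.mem_univ _, not_lt.1 h1, h3⟩
        · exact Or.inr ⟨Finset.mem_univ _, not_lt.1 h3, m, hm1, hm2⟩
    refine ⟨(x + ((j : ℝ) - 8) * (r / 8), b'), ?_, ?_⟩
    · rw [Finset.mem_image]
      exact ⟨(j, b'), Finset.mem_product.2 ⟨hj, hmem⟩, rfl⟩
    · obtain ⟨L', hL', hlt⟩ := low_cost hr hn1 y b' q.2 (by
        intro d hd
        rw [hb']
        simp only
        rw [if_neg (not_lt.2 hd)])
      have h1 := (Conn.move (x + ((j : ℝ) - 8) * (r / 8)) y b').trans hL'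
      have h2 : Cn (x + ((j : ℝ) - 8) * (r / 8), b') q _ := ⟨m0, h1⟩
      refine lt_of_le_of_lt (D_le h2) ?_
      linarith

end Pool.Agent.K7.H50.CN
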