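import Pool.Agent.K7.H36.CN.Basic

set_option autoImplicit false

/-! JOB UP of project CN: going up one can set all digits of the levels `< l`. -/

namespace Pool.Agent.K7.H50.CN

open Pool.Agent.K7.H36.CN

variable {S : ℕ}

theorem conn_up (a : Sh S) {x y : ℝ} (h : x ≤ y) : Conn (x, a) (y, a) (y - x) := by
  have h1 := Conn.move x y a
  rwa [abs_sub_comm, abs_of_nonneg (sub_nonneg.2 h)] at h1

theorem conn_cast {p q : ℝ × Sh S} {L L' : ℝ} (h : Conn p q L) (e : L = L') : Conn p q L' := e ▸ h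

open Classical in
/-- set the digits carried by the block `n` to the values of `b` -/
noncomputable def setBlk (n : ℤ) (b a : Sh S) : Sh S :=
  fun d => if IsBlk n d.1 d.2.1 then b d else a d

theorem pass_block (n : ℤ) (b a : Sh S) :
    Conn ((n : ℝ) * (Lam S : ℝ), a) (((n + 1 : ℤ) : ℝ) * (Lam S : ℝ), setBlk n b a) (Lam S : ℝ) := by
  have hL0 : (0 : ℝ) < Lam S := by exact_mod_cast Lam_pos S
  by_cases hb : ∃ (l : Fin S) (p : Bool), IsBlk n l p
  · obtain ⟨l, p, hlp⟩ := hb
    set dA : Dig S := (l, p, false) with hdA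
    set dB : Dig S := (l, p, true) with hdB
    set a1 : Sh S := Function.update a dA (b dA) with ha1
    set a2 : Sh S := Function.update a1 dB (b dB) with ha2
    have e2 : setBlk n b a = a2 := by
      funext d
      unfold setBlk
      by_cases h : IsBlk n d.1 d.2.1
      · obtain ⟨h1, h2⟩ := blk_unique h hlp
        rw [if_pos h]
        by_cases h3 : d = dB
        · rw [h3, ha2, Function.update_self]
        · have h4 : d = dA := by
            obtain ⟨d1, d2, d3⟩ := d
            simp only at h1 h2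
            subst h1 h2
            cases d3
            · rfl
            · exact absurd rfl h3
          rw [ha2, Function.update_of_ne h3, h4, ha1, Function.update_self]
      · rw [if_neg h]
        have h3 : d ≠ dB := by
          rintro rfl
          exact h hlp
        have h4 : d ≠ dA := by
          rintro rfl
          exact h hlp
        rw [ha2, Function.update_of_ne h3, ha1, Function.update_of_ne h4]
    rw [e2]
    have hM : (0 : ℝ) < MM S := by exact_mod_cast MM_pos S
    have hLM : (Lam S : ℝ) = 64 * MM S := by unfold Lam; push_cast; ring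
    have hphi : phi l p a1 = phi l p a := phi_eq_iff.2 (agree_update a dA (b dA))
    have hphl : (phi l p a : ℝ) < MM S := by exact_mod_cast phi_lt l p a
    have hph0 : (0 : ℝ) ≤ phi l p a := by positivity
    have oA : ((off dA a : ℤ) : ℝ) = 10 * (MM S : ℝ) + phi l p a := by
      simp [off, hdA]
    have oB : ((off dB a1 : ℤ) : ℝ) = 20 * (MM S : ℝ) - phi l p a := by
      simp [off, hdB, hphi]
    set xA : ℝ := n * (Lam S : ℝ) + (10 * (MM S : ℝ) + phi l p a) with hxA
    set xB : ℝ := n * (Lam S : ℝ) + (20 * (MM S : ℝ) - phi l p a) with hxB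
    have s1 : Conn ((n : ℝ) * (Lam S : ℝ), a) (xA, a) (xA - n * (Lam S : ℝ)) :=
      conn_up a (by rw [hxA]; linarith)
    have s2 : Conn (xA, a) (xA, a1) 0 := by
      refine Conn.jump xA a dA (b dA) ⟨n, hlp, ?_⟩
      push_cast
      rw [oA]
    have s3 : Conn (xA, a1) (xB, a1) (xB - xA) := conn_up a1 (by rw [hxA, hxB]; linarith)
    have s4 : Conn (xB, a1) (xB, a2) 0 := by
      refine Conn.jump xB a1 dB (b dB) ⟨n, hlp, ?_⟩
      push_cast
      rw [oB]
    have s5 : Conn (xB, a2) (((n + 1 : ℤ) : ℝ) * (Lam S : ℝ), a2)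
        (((n + 1 : ℤ) : ℝ) * (Lam S : ℝ) - xB) := by
      refine conn_up a2 ?_
      rw [hxB]
      push_cast
      rw [hLM]
      linarith
    refine conn_cast ((((s1.trans s2).trans s3).trans s4).trans s5) ?_
    push_cast
    ring
  · have e2 : setBlk n b a = a := by
      funext d
      unfold setBlk
      rw [if_neg]
      exact fun h => hb ⟨_, _, h⟩
    rw [e2]
    have h1 : (n : ℝ) * (Lam S : ℝ) ≤ ((n + 1 : ℤ) : ℝ) * (Lam S : ℝ) := by
      push_cast
      linarith
    refine conn_cast (conn_up a h1) ?_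
    push_cast
    ring

theorem pass_blocks (n : ℤ) (b a : Sh S) (k : ℕ) : ∃ c : Sh S,
    Conn ((n : ℝ) * (Lam S : ℝ), a) (((n + k : ℤ) : ℝ) * (Lam S : ℝ), c) (k * (Lam S : ℝ)) ∧
    (∀ d, c d = a d ∨ c d = b d) ∧
    ∀ j < k, ∀ d, IsBlk (n + (j : ℤ)) d.1 d.2.1 → c d = b d := by
  induction k with
  | zero =>
    refine ⟨a, ?_, fun d => Or.inl rfl, fun j hj => absurd hj (Nat.not_lt_zero j)⟩
    have := Conn.refl ((n : ℝ) * (Lam S : ℝ), a)
    simpa using this
  | succ k ih =>
    obtain ⟨c, h1, h2, h3⟩ := ih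
    refine ⟨setBlk (n + k) b c, ?_, ?_, ?_⟩
    · have h4 := h1.trans (pass_block (n + k) b c)
      have e1 : (n + (k : ℤ) + 1 : ℤ) = n + ((k + 1 : ℕ) : ℤ) := by push_cast; ring
      rw [e1] at h4
      refine conn_cast h4 ?_
      push_cast
      ring
    · intro d
      unfold setBlk
      split_ifs with h
      · exact Or.inr rfl
      · exact h2 d
    · intro j hj d hd
      unfold setBlk
      split_ifs with h
      · rfl
      · rcases Nat.lt_succ_iff_lt_or_eq.1 hj with h4 | h4
        · exact h3 j h4 d hd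
        · subst h4
          exact absurd hd h

theorem exists_blk (n : ℤ) (l : ℕ) (l' : Fin S) (p : Bool) (h : (l' : ℕ) < l) :
    ∃ j : ℕ, j < 2 ^ (l + 1) ∧ IsBlk (n + (j : ℤ)) l' p := by
  set P : ℤ := 2 ^ ((l' : ℕ) + 2) with hP
  have hP0 : 0 < P := by positivity
  set t : ℤ := 2 ^ (l' : ℕ) * (1 + 2 * (if p then 1 else 0)) with ht
  -- `j = (t - n) mod P`
  have h0 := Int.emod_nonneg (t - n) hP0.ne'
  have h1 := Int.emod_lt_of_pos (t - n) hP0
  have h2 := Int.mul_ediv_add_emod (t - n) P
  refine ⟨((t - n) % P).toNat, ?_, -((t - n) / P), ?_⟩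
  · have h3 : P ≤ ((2 ^ (l + 1) : ℕ) : ℤ) := by
      rw [hP]
      push_cast
      exact pow_le_pow_right₀ (by norm_num) (by omega)
    have h4 : (((t - n) % P).toNat : ℤ) < ((2 ^ (l + 1) : ℕ) : ℤ) := by
      rw [Int.toNat_of_nonneg h0]
      linarith
    exact_mod_cast h4
  · rw [Int.toNat_of_nonneg h0]
    have h5 : n + (t - n) % P = t - P * ((t - n) / P) := by linarith
    rw [h5, hP, ht]
    ring

/-- JOB UP -/
theorem stUp : StUp := by
  intro S l hl a b hab y
  have hL0 : (0 : ℝ) < Lam S := by exact_mod_cast Lam_pos S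
  set n : ℤ := ⌈y / (Lam S : ℝ)⌉ with hn
  have hn1 : y / (Lam S : ℝ) ≤ n := Int.le_ceil _
  have hn2 : (n : ℝ) < y / (Lam S : ℝ) + 1 := Int.ceil_lt_add_one _
  have hn3 : y ≤ n * (Lam S : ℝ) := by rwa [div_le_iff₀ hL0] at hn1
  have hn4 : n * (Lam S : ℝ) < y + Lam S := by
    have := mul_lt_mul_of_pos_right hn2 hL0
    rw [add_mul, div_mul_cancel₀ _ hL0.ne', one_mul] at this
    exact this
  obtain ⟨c, h1, h2, h3⟩ := pass_blocks n b a (2 ^ (l + 1))
  have hc : c = b := by
    funext d
    by_cases hd : (d.1 : ℕ) < l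
    · obtain ⟨j, hj, hb⟩ := exists_blk n l d.1 d.2.1 hd
      exact h3 j hj d hb
    · rcases h2 d with h | h
      · rw [h, hab d (not_lt.1 hd)]
      · exact h
  subst hc
  have s1 := (conn_up a hn3).trans h1
  have h4 : ((n + ((2 ^ (l + 1) : ℕ) : ℤ) : ℤ) : ℝ) * (Lam S : ℝ) ≤
      y + (2 ^ (l + 1) + 2 : ℕ) * (Lam S : ℝ) := by
    push_cast
    nlinarith
  refine conn_cast (s1.trans (conn_up c h4)) ?_
  push_cast
  ring

end Pool.Agent.K7.H50.CN
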